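import Pool.Agent.Helper70.RN.CAa

/-!
# Packet RN-CA (MP_d01c92_ag): generalized Cauchy matrices
-/

set_option autoImplicit false

open scoped BigOperators

universe u

namespace Pool.Agent.Helper70.RN.CA

open Pool.Agent.Helper64.RN Polynomial

theorem t : S_CA.{u} := by
  intro K _ p N ω c v hrep hc hcr hun hN
  classical
  -- the basis
  obtain ⟨B, hBv⟩ : ∃ B : Fin (p + 2) → Fin N, ∀ i, (B i).val = i.val :=
    ⟨fun i => ⟨i.val, by omega⟩, fun i => rfl⟩
  have hB : Function.Injective B := by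
    intro i j hij
    apply Fin.ext
    rw [← hBv i, ← hBv j, hij]
  obtain ⟨g, hg⟩ : ∃ g : Fin N, g.val = p + 2 := ⟨⟨p + 2, by omega⟩, rfl⟩
  obtain ⟨e1, he1⟩ : ∃ e1 : Fin N, e1.val = p + 3 := ⟨⟨p + 3, by omega⟩, rfl⟩
  have hout : ∀ e : Fin N, p + 2 ≤ e.val → ∀ l, B l ≠ e := by
    intro e he l h
    have := hBv l
    rw [h] at this
    omega
  have hge1 : e1 ≠ g := by
    intro h
    rw [h] at he1
    omega
  have hgo : p + 2 ≤ g.val := by omega
  have he1o : p + 2 ≤ e1.val := by omega
  have hωB : ω B ≠ 0 := hun B hB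
  set B' := Function.update B 0 g with hB'
  have hB'i : Function.Injective B' := inj_update hB 0 g fun l _ => hout g hgo l
  set a : Fin (p + 2) → Fin N → K := fun i e => ω (Function.update B i e) with ha
  set b : Fin (p + 2) → Fin N → K := fun i e => ω (Function.update B' i e) with hb
  have ha0 : ∀ i e, p + 2 ≤ e.val → a i e ≠ 0 := fun i e he =>
    hun _ (inj_update hB i e fun l _ => hout e he l)
  have hb0 : ∀ i e, i ≠ 0 → p + 2 ≤ e.val → e ≠ g → b i e ≠ 0 := by
    intro i e hi he heg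
    refine hun _ (inj_update hB'i i e fun l _ => ?_)
    by_cases hl : l = 0
    · rw [hl, hB', Function.update_self]
      exact heg.symm
    · rw [hB', Function.update_of_ne hl]
      exact hout e he l
  have H1 : ∀ i e, i ≠ 0 → b i e * ω B = a 0 g * a i e - a 0 e * a i g := by
    intro i e hi
    exact plu hrep B hωB (Ne.symm hi) g e
  have H2 : ∀ i j e e', i ≠ 0 → j ≠ 0 →
      a i e * a j e' * (b i e' * b j e) = a i e' * a j e * (b i e * b j e') := by
    intro i j e e' hi hj
    by_cases hij : i = j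
    · subst hij
      ring
    · exact crm hrep hcr B B' hij (Function.update_of_ne hi _ _) (Function.update_of_ne hj _ _) e e'
  set ρ : Fin (p + 2) → Fin N → K := fun i e => b i e * ω B / (a 0 g * a i e) with hρ
  have ha0g : a 0 g ≠ 0 := ha0 0 g hgo
  have hρ0 : ∀ i e, i ≠ 0 → p + 2 ≤ e.val → e ≠ g → ρ i e ≠ 0 := by
    intro i e hi he heg
    exact div_ne_zero (mul_ne_zero (hb0 i e hi he heg) hωB) (mul_ne_zero ha0g (ha0 i e he))
  have hρm : ∀ i j e e', i ≠ 0 → j ≠ 0 → p + 2 ≤ e.val → p + 2 ≤ e'.val →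
      ρ i e * ρ j e' = ρ i e' * ρ j e := by
    intro i j e e' hi hj he he'
    have h1 := ha0 i e he
    have h2 := ha0 i e' he'
    have h3 := ha0 j e he
    have h4 := ha0 j e' he'
    have h5 := H2 i j e e' hi hj
    simp only [hρ]
    field_simp
    linear_combination -h5
  have h10 : (1 : Fin (p + 2)) ≠ 0 := by simp
  have hρ1 : ρ 1 e1 ≠ 0 := hρ0 1 e1 h10 he1o hge1
  set Z : Fin (p + 2) → K := fun i => ρ 1 e1 / ρ i e1 with hZ
  have hZ0 : ∀ i, i ≠ 0 → Z i ≠ 0 := fun i hi => div_ne_zero hρ1 (hρ0 i e1 hi he1o hge1)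
  have hZρ : ∀ i e, i ≠ 0 → p + 2 ≤ e.val → ρ i e * Z i = ρ 1 e := by
    intro i e hi he
    have h1 := hρm i 1 e e1 hi h10 he he1o
    have h2 := hρ0 i e1 hi he1o hge1
    simp only [hZ]
    rw [← mul_div_assoc, h1, mul_comm, mul_div_assoc, div_self h2, mul_one]
  have H3 : ∀ i e, i ≠ 0 → p + 2 ≤ e.val →
      a i e * (Z i - ρ 1 e) = a 0 e * (a i g * Z i / a 0 g) := by
    intro i e hi he
    rw [← hZρ i e hi he]
    have h1 := H1 i e hi
    have h2 := ha0 i e he
    have h3 : ρ i e = 1 - a 0 e * a i g / (a 0 g * a i e) := by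
      simp only [hρ]
      rw [h1]
      field_simp
    rw [h3]
    field_simp
    ring
  have hag : ∀ i, i ≠ 0 → a i g * Z i / a 0 g ≠ 0 := fun i hi =>
    div_ne_zero (mul_ne_zero (ha0 i g hgo) (hZ0 i hi)) ha0g
  have hZz : ∀ i e, i ≠ 0 → p + 2 ≤ e.val → Z i - ρ 1 e ≠ 0 := by
    intro i e hi he h0
    have h1 := H3 i e hi he
    rw [h0, mul_zero] at h1
    exact mul_ne_zero (ha0 0 e he) (hag i hi) h1.symm
  have hZi : ∀ i j, i ≠ 0 → j ≠ 0 → i ≠ j → Z i ≠ Z j := by
    intro i j hi hj hij hZij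
    have h1 := H3 i e1 hi he1o
    have h2 := H3 j e1 hj he1o
    rw [← hZij] at h2
    have h3 : a i g * a j e1 - a i e1 * a j g = 0 := by
      have h4 : (Z i - ρ 1 e1) * (a i g * a j e1 - a i e1 * a j g) = 0 := by
        have e3 : (Z i - ρ 1 e1) * (a i g * a j e1 - a i e1 * a j g) =
            a i g * (a j e1 * (Z i - ρ 1 e1)) - a j g * (a i e1 * (Z i - ρ 1 e1)) := by ring
        rw [e3, h1, h2]
        ring
      exact (mul_eq_zero.1 h4).resolve_left (hZz i e1 hi he1o)
    have h5 := plu hrep B hωB hij g e1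
    have h6 : ω (up B i j g e1) ≠ 0 := by
      apply hun
      refine inj_update (inj_update hB i g fun l _ => hout g hgo l) j e1 fun l _ => ?_
      by_cases hl : l = i
      · rw [hl, Function.update_self]
        exact hge1.symm
      · rw [Function.update_of_ne hl]
        exact hout e1 he1o l
    have h7 : ω (up B i j g e1) * ω B = a i g * a j e1 - a i e1 * a j g := h5
    rw [h3] at h7
    exact mul_ne_zero h6 hωB h7
  -- the polynomials
  set S : Finset (Fin (p + 2)) := Finset.univ.erase 0 with hS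
  have hScard : S.card = p + 1 := by
    rw [hS, Finset.card_erase_of_mem (Finset.mem_univ _), Finset.card_univ, Fintype.card_fin]
    rfl
  have hSm : ∀ i, i ∈ S ↔ i ≠ 0 := by
    intro i
    simp [hS]
  set Φ : Fin (p + 2) → K[X] := fun k => C (v (B 0) k) * ∏ i ∈ S, (C (Z i) - X) +
    ∑ i ∈ S, C (a i g * Z i / a 0 g * v (B i) k) * ∏ j ∈ S.erase i, (C (Z j) - X) with hΦ
  have hdegp : ∀ (Q : Finset (Fin (p + 2))), (∏ j ∈ Q, (C (Z j) - X : K[X])).natDegree ≤ Q.card := by
    intro Q
    refine (Polynomial.natDegree_prod_le _ _).trans ?_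
    refine (Finset.sum_le_card_nsmul Q _ 1 fun j _ => ?_).trans (by simp)
    refine (Polynomial.natDegree_sub_le _ _).trans ?_
    simp
  have hdeg : ∀ k, (Φ k).natDegree < p + 2 := by
    intro k
    rw [Nat.lt_succ_iff]
    refine (Polynomial.natDegree_add_le _ _).trans (max_le ?_ ?_)
    · refine (Polynomial.natDegree_C_mul_le _ _).trans ?_
      rw [← hScard]
      exact hdegp S
    · refine Polynomial.natDegree_sum_le_of_forall_le _ _ fun i hi => ?_
      refine (Polynomial.natDegree_C_mul_le _ _).trans ?_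
      refine (hdegp _).trans ?_
      rw [← hScard]
      exact Finset.card_le_card (Finset.erase_subset _ _)
  have heval : ∀ k x, (Φ k).eval x = v (B 0) k * ∏ i ∈ S, (Z i - x) +
      ∑ i ∈ S, a i g * Z i / a 0 g * v (B i) k * ∏ j ∈ S.erase i, (Z j - x) := by
    intro k x
    simp only [hΦ, eval_add, eval_mul, eval_C, eval_finsetSum, eval_prod, eval_sub, eval_X]
  -- the points
  set z : Fin N → K := fun e => if h : e.val < p + 2 then Z ⟨e.val, h⟩ else ρ 1 e with hz
  have hzo : ∀ e : Fin N, p + 2 ≤ e.val → z e = ρ 1 e := by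
    intro e he
    simp only [hz]
    rw [dif_neg (by omega)]
  have hzB : ∀ i, z (B i) = Z i := by
    intro i
    simp only [hz]
    rw [dif_pos (by rw [hBv]; exact i.2)]
    congr 1
    apply Fin.ext
    exact hBv i
  set o := B 0 with ho
  have key : ∀ e, e ≠ o → ∃ τ : K, τ ≠ 0 ∧ ∀ k, v e k = τ * (Φ k).eval (z e) := by
    intro e heo
    by_cases he : e.val < p + 2
    · -- in the basis
      obtain ⟨i, rfl⟩ : ∃ i, e = B i := ⟨⟨e.val, he⟩, by apply Fin.ext; rw [hBv]⟩
      have hi : i ≠ 0 := by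
        rintro rfl
        exact heo rfl
      have hpr : ∏ j ∈ S.erase i, (Z j - Z i) ≠ 0 := by
        rw [Finset.prod_ne_zero_iff]
        intro j hj
        rw [Finset.mem_erase, hSm] at hj
        exact sub_ne_zero.2 (hZi j i hj.2 hi hj.1)
      refine ⟨(a i g * Z i / a 0 g * ∏ j ∈ S.erase i, (Z j - Z i))⁻¹,
        inv_ne_zero (mul_ne_zero (hag i hi) hpr), fun k => ?_⟩
      rw [hzB, heval, Finset.prod_eq_zero ((hSm i).2 hi) (sub_self _), mul_zero, zero_add,
        Finset.sum_eq_single i]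
      · have h1 := hag i hi
        have e2 : (a i g * Z i / a 0 g * ∏ j ∈ S.erase i, (Z j - Z i))⁻¹ *
            (a i g * Z i / a 0 g * v (B i) k * ∏ j ∈ S.erase i, (Z j - Z i)) =
            v (B i) k * ((a i g * Z i / a 0 g * ∏ j ∈ S.erase i, (Z j - Z i))⁻¹ *
              (a i g * Z i / a 0 g * ∏ j ∈ S.erase i, (Z j - Z i))) := by ring
        rw [e2, inv_mul_cancel₀ (mul_ne_zero h1 hpr), mul_one]
      · intro j hj hji
        rw [Finset.prod_eq_zero (Finset.mem_erase.2 ⟨Ne.symm hji, (hSm i).2 hi⟩) (sub_self _),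
          mul_zero]
      · intro h
        exact absurd ((hSm i).2 hi) h
    · have he' : p + 2 ≤ e.val := by omega
      have hpr : ∏ i ∈ S, (Z i - ρ 1 e) ≠ 0 := by
        rw [Finset.prod_ne_zero_iff]
        intro j hj
        exact hZz j e ((hSm j).1 hj) he'
      refine ⟨a 0 e / ω B * (∏ i ∈ S, (Z i - ρ 1 e))⁻¹,
        mul_ne_zero (div_ne_zero (ha0 0 e he') hωB) (inv_ne_zero hpr), fun k => ?_⟩
      have h1 := congrFun (vec_eq hrep B hωB e) k
      rw [Finset.sum_apply] at h1
      simp only [Pi.smul_apply, smul_eq_mul] at h1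
      have h2 : v e k * ∏ i ∈ S, (Z i - ρ 1 e) = a 0 e / ω B * (Φ k).eval (ρ 1 e) := by
        rw [heval, h1, ← Finset.add_sum_erase _ _ (Finset.mem_univ (0 : Fin (p + 2))), add_mul,
          mul_add]
        congr 1
        · change a 0 e / ω B * v (B 0) k * _ = _
          ring
        · rw [Finset.sum_mul, Finset.mul_sum]
          refine Finset.sum_congr rfl fun i hi => ?_
          rw [← Finset.mul_prod_erase S _ hi]
          have h3 := H3 i e ((hSm i).1 hi) he'
          change a i e / ω B * v (B i) k * _ = _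
          have e4 : a i e / ω B * v (B i) k * ((Z i - ρ 1 e) * ∏ j ∈ S.erase i, (Z j - ρ 1 e)) =
              (a i e * (Z i - ρ 1 e)) / ω B * v (B i) k * ∏ j ∈ S.erase i, (Z j - ρ 1 e) := by
            ring
          rw [e4, h3]
          ring
      rw [hzo e he']
      have e5 : a 0 e / ω B * (∏ i ∈ S, (Z i - ρ 1 e))⁻¹ * (Φ k).eval (ρ 1 e) =
          (a 0 e / ω B * (Φ k).eval (ρ 1 e)) * (∏ i ∈ S, (Z i - ρ 1 e))⁻¹ := by ring
      rw [e5, ← h2, mul_assoc, mul_inv_cancel₀ hpr, mul_one]
  choose! τ hτ0 hτ using key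
  set M : Matrix (Fin (p + 2)) (Fin (p + 2)) K := Matrix.of fun k l => (Φ k).coeff l.val with hM
  have hform : ∀ q : Fin (p + 2) → Fin N, (∀ j, q j ≠ o) →
      ω q = c * M.det * Matrix.det (fun i j : Fin (p + 2) => τ (q j) * z (q j) ^ (i : ℕ)) := by
    intro q hq
    rw [hrep]
    have h1 : (Matrix.of fun i j : Fin (p + 2) => v (q j) i) =
        M * Matrix.of (fun i j : Fin (p + 2) => τ (q j) * z (q j) ^ (i : ℕ)) := by
      ext k j
      rw [Matrix.mul_apply]
      simp only [Matrix.of_apply, hM]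
      rw [hτ (q j) (hq j) k, Polynomial.eval_eq_sum_range' (hdeg k), Finset.mul_sum,
        Finset.sum_range]
      refine Finset.sum_congr rfl fun l _ => ?_
      ring
    have h2 : Matrix.det (fun i j : Fin (p + 2) => v (q j) i) =
        Matrix.det (Matrix.of fun i j : Fin (p + 2) => v (q j) i) := rfl
    rw [h2, h1, Matrix.det_mul, mul_assoc]
    rfl
  have hc' : c * M.det ≠ 0 := by
    have hq : ω (fun j : Fin (p + 2) => (⟨j.val + 1, by omega⟩ : Fin N)) ≠ 0 := by
      apply hun
      intro i j hij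
      apply Fin.ext
      have := congrArg Fin.val hij
      simpa using this
    rw [hform _ (by
      intro j h
      have := congrArg Fin.val h
      rw [ho, hBv] at this
      simp at this)] at hq
    exact left_ne_zero_of_mul hq
  refine ⟨o, c * M.det, τ, z, hc', hτ0, ?_, hform⟩
  intro e e' he he' hzz
  by_contra hne
  obtain ⟨s, hs1, hs2, hs3⟩ := Finset.exists_subsuperset_card_eq (n := p + 2)
    (s := ({e, e'} : Finset (Fin N))) (t := Finset.univ.erase o) (by
      intro x hx
      rw [Finset.mem_insert, Finset.mem_singleton] at hx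
      rw [Finset.mem_erase]
      rcases hx with rfl | rfl
      · exact ⟨he, Finset.mem_univ _⟩
      · exact ⟨he', Finset.mem_univ _⟩) (by
      rw [Finset.card_pair hne]
      omega) (by
      rw [Finset.card_erase_of_mem (Finset.mem_univ _), Finset.card_univ, Fintype.card_fin]
      omega)
  set q : Fin (p + 2) → Fin N := fun j => (s.equivFinOfCardEq hs3).symm j with hq
  have hqi : Function.Injective q := by
    intro i j hij
    exact (s.equivFinOfCardEq hs3).symm.injective (Subtype.ext hij)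
  have hqs : ∀ x ∈ s, ∃ j, q j = x := by
    intro x hx
    refine ⟨s.equivFinOfCardEq hs3 ⟨x, hx⟩, ?_⟩
    simp [hq]
  obtain ⟨j, hj⟩ := hqs e (hs1 (by simp))
  obtain ⟨j', hj'⟩ := hqs e' (hs1 (by simp))
  have hjj : j ≠ j' := by
    rintro rfl
    exact hne (hj.symm.trans hj')
  have h1 := hun q hqi
  rw [hform q (fun l => (Finset.mem_erase.1 (hs2 ((s.equivFinOfCardEq hs3).symm l).2)).1)] at h1
  apply h1
  have h2 : Matrix.det (Matrix.of fun i l : Fin (p + 2) => z (q l) ^ (i : ℕ)) = 0 := by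
    refine Matrix.det_zero_of_column_eq hjj fun i => ?_
    simp only [Matrix.of_apply]
    rw [hj, hj', hzz]
  have h3 := Matrix.det_mul_row (fun l => τ (q l))
    (Matrix.of fun i l : Fin (p + 2) => z (q l) ^ (i : ℕ))
  rw [h2, mul_zero] at h3
  have h4 : Matrix.det (fun i l : Fin (p + 2) => τ (q l) * z (q l) ^ (i : ℕ)) = 0 := h3
  rw [h4, mul_zero]

end Pool.Agent.Helper70.RN.CA
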