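import Pool.Agent.Helper64.RN.Goals

/-!
# Packet RN-CA, part 1: alternating forms, Plücker relation
-/

set_option autoImplicit false

open scoped BigOperators

universe u

namespace Pool.Agent.Helper70.RN.CA

open Pool.Agent.Helper64.RN

variable {K : Type u} [Field K] {P : ℕ} {E : Type}

theorem rep_comp_swap {ω : (Fin P → E) → K} {c : K} {v : E → Fin P → K} (h : Rep ω c v)
    (a : Fin P → E) {i j : Fin P} (hij : i ≠ j) : ω (a ∘ Equiv.swap i j) = -ω a := by
  rw [h, h]
  have : (fun k l : Fin P => v ((a ∘ Equiv.swap i j) l) k) =
      (Matrix.of fun k l : Fin P => v (a l) k).submatrix id (Equiv.swap i j) := rfl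
  rw [this, Matrix.det_permute', Equiv.Perm.sign_swap hij]
  simp only [Units.val_neg, Units.val_one, Int.cast_neg, Int.cast_one]
  change c * (-1 * Matrix.det fun k l : Fin P => v (a l) k) = _
  ring

theorem rep_eq_zero {ω : (Fin P → E) → K} {c : K} {v : E → Fin P → K} (h : Rep ω c v)
    (a : Fin P → E) {i j : Fin P} (hij : i ≠ j) (ha : a i = a j) : ω a = 0 := by
  rw [h]
  have h1 : Matrix.det (Matrix.of fun k l : Fin P => v (a l) k) = 0 :=
    Matrix.det_zero_of_column_eq hij (by intro k; simp only [Matrix.of_apply]; rw [ha])
  change c * Matrix.det (Matrix.of fun k l : Fin P => v (a l) k) = 0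
  rw [h1, mul_zero]

/-- The linear form: the vector at the position `j` replaced by `x`. -/
noncomputable def lf (c : K) (v : E → Fin P → K) (w : Fin P → E) (j : Fin P) :
    (Fin P → K) →ₗ[K] K :=
  c • (LinearMap.proj j ∘ₗ Matrix.cramer (Matrix.of fun k l : Fin P => v (w l) k))

theorem lf_apply {ω : (Fin P → E) → K} {c : K} {v : E → Fin P → K} [DecidableEq E]
    (h : Rep ω c v) (w : Fin P → E) (j : Fin P) (b : E) :
    lf c v w j (v b) = ω (Function.update w j b) := by
  rw [h]
  unfold lf
  simp only [LinearMap.smul_apply, LinearMap.coe_comp, Function.comp_apply, LinearMap.coe_proj,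
    Function.eval, Matrix.cramer_apply, smul_eq_mul]
  congr 2
  ext k l
  by_cases hl : l = j
  · subst hl
    simp
  · simp [hl]

/-- Cramer. -/
theorem vec_eq {ω : (Fin P → E) → K} {c : K} {v : E → Fin P → K} [DecidableEq E]
    (h : Rep ω c v) (s : Fin P → E) (hs : ω s ≠ 0) (b : E) :
    v b = ∑ k, (ω (Function.update s k b) / ω s) • v (s k) := by
  have hs' := hs
  rw [h s] at hs'
  set M : Matrix (Fin P) (Fin P) K := Matrix.of fun k l : Fin P => v (s l) k with hM
  have hc : c ≠ 0 := left_ne_zero_of_mul hs'
  have hd : M.det ≠ 0 := right_ne_zero_of_mul hs'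
  have h1 := Matrix.mulVec_cramer M (v b)
  have h2 : ∀ k, ω (Function.update s k b) = c * Matrix.cramer M (v b) k := by
    intro k
    rw [← lf_apply h]
    simp [lf, hM]
  have h3 : ω s = c * M.det := h s
  funext l
  have h4 := congrFun h1 l
  simp only [Matrix.mulVec, dotProduct, Pi.smul_apply, smul_eq_mul] at h4
  rw [Finset.sum_apply]
  simp only [Pi.smul_apply, smul_eq_mul]
  have h5 : ∀ k, ω (Function.update s k b) / ω s * v (s k) l =
      (M l k * Matrix.cramer M (v b) k) / M.det := by
    intro k
    rw [h2, h3]
    simp only [hM, Matrix.of_apply]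
    field_simp
  rw [Finset.sum_congr rfl fun k _ => h5 k, ← Finset.sum_div, h4]
  field_simp

/-- The Plücker relation. -/
theorem plu {ω : (Fin P → E) → K} {c : K} {v : E → Fin P → K} [DecidableEq E]
    (h : Rep ω c v) (s : Fin P → E) (hs : ω s ≠ 0) {i j : Fin P} (hij : i ≠ j) (a b : E) :
    ω (up s i j a b) * ω s = ω (Function.update s i a) * ω (Function.update s j b) -
      ω (Function.update s i b) * ω (Function.update s j a) := by
  have h1 : ω (up s i j a b) = lf c v (Function.update s i a) j (v b) := by
    rw [lf_apply h]
    rfl
  rw [h1, vec_eq h s hs b, map_sum]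
  simp only [map_smul, smul_eq_mul]
  have h2 : ∀ k, lf c v (Function.update s i a) j (v (s k)) =
      if k = j then ω (Function.update s i a) else
        if k = i then -ω (Function.update s j a) else 0 := by
    intro k
    rw [lf_apply h]
    by_cases hkj : k = j
    · subst hkj
      rw [if_pos rfl]
      congr 1
      funext l
      by_cases hl : l = k
      · subst hl
        rw [Function.update_self, Function.update_of_ne (Ne.symm hij)]
      · rw [Function.update_of_ne hl]
    · rw [if_neg hkj]
      by_cases hki : k = i
      · subst hki
        rw [if_pos rfl, ← rep_comp_swap h _ hij]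
        congr 1
        funext l
        simp only [Function.comp_apply]
        by_cases hl : l = j
        · subst hl
          rw [Function.update_self, Equiv.swap_apply_right, Function.update_of_ne hij]
        · rw [Function.update_of_ne hl]
          by_cases hl2 : l = k
          · subst hl2
            rw [Function.update_self, Equiv.swap_apply_left, Function.update_self]
          · rw [Function.update_of_ne hl2, Equiv.swap_apply_of_ne_of_ne hl2 hl,
              Function.update_of_ne hl]
      · rw [if_neg hki]
        refine rep_eq_zero h _ hkj ?_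
        rw [Function.update_self, Function.update_of_ne hkj, Function.update_of_ne hki]
  simp only [h2]
  have h3 : ∀ k, ω (Function.update s k b) / ω s *
      (if k = j then ω (Function.update s i a) else
        if k = i then -ω (Function.update s j a) else 0) =
      (if k = j then ω (Function.update s j b) / ω s * ω (Function.update s i a) else 0) +
      (if k = i then -(ω (Function.update s i b) / ω s * ω (Function.update s j a)) else 0) := by
    intro k
    by_cases hkj : k = j
    · subst hkj
      rw [if_pos rfl, if_pos rfl, if_neg (Ne.symm hij), add_zero]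
    · by_cases hki : k = i
      · subst hki
        rw [if_neg hkj, if_pos rfl, if_neg hkj, if_pos rfl]
        ring
      · rw [if_neg hkj, if_neg hki, if_neg hkj, if_neg hki]
        ring
  rw [Finset.sum_congr rfl fun k _ => h3 k, Finset.sum_add_distrib, Finset.sum_ite_eq',
    Finset.sum_ite_eq', if_pos (Finset.mem_univ _), if_pos (Finset.mem_univ _)]
  field_simp
  ring

theorem up_swap_left [DecidableEq E] (s : Fin P → E) {i j : Fin P} (hij : i ≠ j) (e : E) :
    up s i j (s j) e = Function.update s i e ∘ Equiv.swap i j := by
  unfold up
  funext l
  simp only [Function.comp_apply]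
  by_cases hl : l = j
  · subst hl
    rw [Function.update_self, Equiv.swap_apply_right, Function.update_self]
  · rw [Function.update_of_ne hl]
    by_cases hl2 : l = i
    · subst hl2
      rw [Function.update_self, Equiv.swap_apply_left, Function.update_of_ne (Ne.symm hij)]
    · rw [Function.update_of_ne hl2, Equiv.swap_apply_of_ne_of_ne hl2 hl,
        Function.update_of_ne hl2]

theorem up_swap_right [DecidableEq E] (s : Fin P → E) {i j : Fin P} (hij : i ≠ j) (e : E) :
    up s i j e (s i) = Function.update s j e ∘ Equiv.swap i j := by
  unfold up
  funext l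
  simp only [Function.comp_apply]
  by_cases hl : l = j
  · subst hl
    rw [Function.update_self, Equiv.swap_apply_right, Function.update_of_ne hij]
  · rw [Function.update_of_ne hl]
    by_cases hl2 : l = i
    · subst hl2
      rw [Function.update_self, Equiv.swap_apply_left, Function.update_self]
    · rw [Function.update_of_ne hl2, Equiv.swap_apply_of_ne_of_ne hl2 hl,
        Function.update_of_ne hl]

/-- The cross-ratio equation in terms of replacements of one vector. -/
theorem crm {ω : (Fin P → E) → K} {c : K} {v : E → Fin P → K} [DecidableEq E]
    (h : Rep ω c v) (hcr : CR ω) (s s' : Fin P → E) {i j : Fin P} (hij : i ≠ j) (hi : s' i = s i)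
    (hj : s' j = s j) (e e' : E) :
    ω (Function.update s i e) * ω (Function.update s j e') *
      (ω (Function.update s' i e') * ω (Function.update s' j e)) =
    ω (Function.update s i e') * ω (Function.update s j e) *
      (ω (Function.update s' i e) * ω (Function.update s' j e')) := by
  have h1 := hcr i j s s' (s j) e e' (s i) hij
  have a1 : ω (up s i j (s j) e) = -ω (Function.update s i e) := by
    rw [up_swap_left s hij, rep_comp_swap h _ hij]
  have a2 : ω (up s i j e' (s i)) = -ω (Function.update s j e') := by
    rw [up_swap_right s hij, rep_comp_swap h _ hij]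
  have a3 : ω (up s' i j (s j) e') = -ω (Function.update s' i e') := by
    rw [← hj, up_swap_left s' hij, rep_comp_swap h _ hij]
  have a4 : ω (up s' i j e (s i)) = -ω (Function.update s' j e) := by
    rw [← hi, up_swap_right s' hij, rep_comp_swap h _ hij]
  have a5 : ω (up s i j (s j) e') = -ω (Function.update s i e') := by
    rw [up_swap_left s hij, rep_comp_swap h _ hij]
  have a6 : ω (up s i j e (s i)) = -ω (Function.update s j e) := by
    rw [up_swap_right s hij, rep_comp_swap h _ hij]
  have a7 : ω (up s' i j (s j) e) = -ω (Function.update s' i e) := by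
    rw [← hj, up_swap_left s' hij, rep_comp_swap h _ hij]
  have a8 : ω (up s' i j e' (s i)) = -ω (Function.update s' j e') := by
    rw [← hi, up_swap_right s' hij, rep_comp_swap h _ hij]
  rw [a1, a2, a3, a4, a5, a6, a7, a8] at h1
  linear_combination h1

theorem inj_update {s : Fin P → E} (hs : Function.Injective s) (i : Fin P) (e : E)
    (he : ∀ l, l ≠ i → s l ≠ e) : Function.Injective (Function.update s i e) := by
  intro k l hkl
  by_cases hk : k = i
  · by_cases hl : l = i
    · rw [hk, hl]
    · rw [hk, Function.update_self, Function.update_of_ne hl] at hkl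
      exact absurd hkl.symm (he l hl)
  · by_cases hl : l = i
    · rw [hl, Function.update_self, Function.update_of_ne hk] at hkl
      exact absurd hkl (he k hk)
    · rw [Function.update_of_ne hk, Function.update_of_ne hl] at hkl
      exact hs hkl

end Pool.Agent.Helper70.RN.CA
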